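import Mathlib

/-!
# MP_b1e538: definitions

`R3` is Euclidean 3-space, `Sp` the space of spinors C^2 with its Euclidean norm.
-/

open MeasureTheory

namespace Helper97.PC

noncomputable section

/-- Euclidean space. -/
abbrev R3 := EuclideanSpace ℝ (Fin 3)

/-- Spinors. -/
abbrev Sp := EuclideanSpace ℂ (Fin 2)

/-- The three Pauli matrices. -/
def pauli : Fin 3 → Matrix (Fin 2) (Fin 2) ℂ :=
  ![!![0, 1; 1, 0], !![0, -Complex.I; Complex.I, 0], !![1, 0; 0, -1]]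

/-- `σ_j s`, as a linear map. -/
def sigL (j : Fin 3) : Sp →ₗ[ℂ] Sp := Matrix.toEuclideanLin (pauli j)

/-- `σ_j s`, as a continuous linear map. -/
def sig (j : Fin 3) : Sp →L[ℂ] Sp := ⟨sigL j, LinearMap.continuous_of_finiteDimensional _⟩

/-- The `j`-th partial derivative of `f` at `x`. -/
def pd {E : Type*} [NormedAddCommGroup E] [NormedSpace ℝ E] (j : Fin 3) (f : R3 → E) (x : R3) : E :=
  fderiv ℝ f x (EuclideanSpace.single j 1)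

/-- Real test functions: smooth with compact support. -/
def Test {E : Type*} [NormedAddCommGroup E] [NormedSpace ℝ E] (f : R3 → E) : Prop :=
  ContDiff ℝ (⊤ : ℕ∞) f ∧ HasCompactSupport f

/-- `g` is the `j`-th partial derivative of `f` in the sense of distributions. -/
def WeakD {E : Type*} [NormedAddCommGroup E] [NormedSpace ℝ E] (j : Fin 3) (f g : R3 → E) : Prop :=
  ∀ φ : R3 → ℝ, Test φ → ∫ x, pd j φ x • f x = - ∫ x, φ x • g x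

/-- `(σ·(p-A)ψ)(x)`, with `D j` for the `j`-th derivative of `ψ`. -/
def Pi (ψ : R3 → Sp) (D : Fin 3 → R3 → Sp) (A : Fin 3 → R3 → ℝ) (x : R3) : Sp :=
  ∑ j, sig j ((-Complex.I) • D j x - (A j x : ℂ) • ψ x)

/-- `ψ ∈ H^1(R^3; C^2)` with weak partial derivatives `D j`, `A ∈ L^6` with `div A = 0` and
`curl A = B ∈ L^2` in the sense of distributions.  The last two conditions hold automatically
(by the inequalities of Sobolev and Hardy). -/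
structure Adm (ψ : R3 → Sp) (D : Fin 3 → R3 → Sp) (A B : Fin 3 → R3 → ℝ) : Prop where
  psiL2 : MemLp ψ 2 volume
  derL2 : ∀ j, MemLp (D j) 2 volume
  der : ∀ j, WeakD j ψ (D j)
  potL6 : ∀ j, MemLp (A j) 6 volume
  div : ∀ φ : R3 → ℝ, Test φ → ∫ x, ∑ j, pd j φ x * A j x = 0
  magL2 : ∀ j, MemLp (B j) 2 volume
  curl : ∀ (j : Fin 3) (φ : R3 → ℝ), Test φ →
    ∫ x, (pd (j + 1) φ x * A (j + 2) x - pd (j + 2) φ x * A (j + 1) x) = - ∫ x, φ x * B j x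
  kinL2 : MemLp (Pi ψ D A) 2 volume
  couL1 : Integrable (fun x => ‖ψ x‖ ^ 2 / ‖x‖) volume

/-- `‖ψ‖²`. -/
def nrm (ψ : R3 → Sp) : ℝ := ∫ x, ‖ψ x‖ ^ 2

/-- `‖σ·(p-A)ψ‖²`. -/
def kin (ψ : R3 → Sp) (D : Fin 3 → R3 → Sp) (A : Fin 3 → R3 → ℝ) : ℝ := ∫ x, ‖Pi ψ D A x‖ ^ 2

/-- `‖B‖²`. -/
def mag (B : Fin 3 → R3 → ℝ) : ℝ := ∫ x, ∑ j, (B j x) ^ 2

/-- `∫ |ψ|²/|x|`. -/
def cou (ψ : R3 → Sp) : ℝ := ∫ x, ‖ψ x‖ ^ 2 / ‖x‖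

/-- The class `𝒞`: admissible pairs with `‖ψ‖ = 1`. -/
def InC (ψ : R3 → Sp) (D : Fin 3 → R3 → Sp) (A B : Fin 3 → R3 → ℝ) : Prop :=
  Adm ψ D A B ∧ nrm ψ = 1

/-- The class `𝓕` of zero modes. -/
def InF (ψ : R3 → Sp) (D : Fin 3 → R3 → Sp) (A B : Fin 3 → R3 → ℝ) : Prop :=
  InC ψ D A B ∧ ∀ᵐ x, Pi ψ D A x = 0

/-- The values `𝓔_z(ψ, A)`, `(ψ, A) ∈ 𝒞`. -/
def energies (ε z : ℝ) : Set ℝ :=
  {e | ∃ ψ D A B, InC ψ D A B ∧ e = kin ψ D A + ε * mag B - z * cou ψ}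

/-- `E(z) > -∞`. -/
def Finite (ε z : ℝ) : Prop := BddBelow (energies ε z)

/-! ## The statements of the rows -/

/-- SC: scaling. -/
def ST_SC : Prop := ∀ ψ D A B (lam : ℝ), 0 < lam → InC ψ D A B → ∃ ψ' D' A' B',
  InC ψ' D' A' B' ∧ kin ψ' D' A' = lam ^ 2 * kin ψ D A ∧ mag B' = lam * mag B ∧
    cou ψ' = lam * cou ψ

/-- NRM: normalisation. -/
def ST_NRM : Prop := ∀ ψ D A B, Adm ψ D A B → 0 < nrm ψ → ∃ ψ' D',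
  InC ψ' D' A B ∧ kin ψ' D' A = kin ψ D A / nrm ψ ∧ cou ψ' = cou ψ / nrm ψ

/-- QI: the scale invariant form. -/
def ST_QI : Prop := ∀ ε z : ℝ, 0 < ε → 0 < z → (Finite ε z ↔ ∃ C : ℝ, ∀ ψ D A B, InC ψ D A B →
  z * cou ψ ≤ ε * mag B + C * Real.sqrt (kin ψ D A))

/-- QH: the homogeneous form (also for `ψ = 0`). -/
def ST_QH : Prop := ∀ ε z : ℝ, 0 < ε → 0 < z → Finite ε z → ∃ C : ℝ, 0 ≤ C ∧
  ∀ ψ D A B, Adm ψ D A B →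
    z * cou ψ ≤ ε * mag B * nrm ψ + C * Real.sqrt (nrm ψ) * Real.sqrt (kin ψ D A)

/-- CUT: cutting off a zero mode. -/
def ST_CUT : Prop := ∃ C : ℝ, 0 ≤ C ∧ ∀ ψ D A B, InF ψ D A B → ∀ R : ℝ, 0 < R → ∃ ψ' D',
  Adm ψ' D' A B ∧ kin ψ' D' A ≤ (C / R) ^ 2 * (∫ x in {x | R < ‖x‖}, ‖ψ x‖ ^ 2) ∧
  nrm ψ' ≤ 1 - ∫ x in {x | 2 * R < ‖x‖}, ‖ψ x‖ ^ 2 ∧
  cou ψ - (∫ x in {x | R < ‖x‖}, ‖ψ x‖ ^ 2) / R ≤ cou ψ'

/-- ITER: the iteration (pure real analysis). -/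
def ST_ITER : Prop := ∀ (m : ℝ → ℝ) (C : ℝ), (∀ R, 0 ≤ m R) → (∀ R, m R ≤ 1) →
  (∀ R, 0 < R → m (2 * R) ≤ C / R * (m R + Real.sqrt (m R))) → ∃ C', ∀ R, 0 < R → m R ≤ C' / R ^ 2

/-- TAIL. -/
def ST_TAIL : Prop := ∀ ε z : ℝ, 0 < ε → 0 < z → Finite ε z → ∀ ψ D A B, InF ψ D A B →
  ε * mag B = z * cou ψ → ∃ C : ℝ, ∀ R : ℝ, 0 < R →
    ∫ x in {x | R < ‖x‖}, ‖ψ x‖ ^ 2 ≤ C / R ^ 2

/-- Divergence free test fields. -/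
def TestA (a : Fin 3 → R3 → ℝ) : Prop := (∀ j, Test (a j)) ∧ ∀ x, ∑ j, pd j (a j) x = 0

/-- `curl a`. -/
def curlA (a : Fin 3 → R3 → ℝ) (j : Fin 3) (x : R3) : ℝ :=
  pd (j + 1) (a (j + 2)) x - pd (j + 2) (a (j + 1)) x

/-- The linearisation `σ·(p-A)θ - σ·a ψ` of `(ψ, A) ↦ σ·(p-A)ψ`. -/
def Lin (ψ : R3 → Sp) (A : Fin 3 → R3 → ℝ) (θ : R3 → Sp) (a : Fin 3 → R3 → ℝ) (x : R3) : Sp :=
  Pi θ (fun j => pd j θ) A x - ∑ j, (a j x : ℂ) • sig j (ψ x)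

/-- PERT: perturbation by test functions. -/
def ST_PERT : Prop := ∀ ψ D A B, Adm ψ D A B → ∀ θ a, Test θ → TestA a → ∀ t : ℝ,
  Adm (fun x => ψ x + t • θ x) (fun j x => D j x + t • pd j θ x) (fun j x => A j x + t * a j x)
    (fun j x => B j x + t * curlA a j x)

/-- The derivative of `ε ‖B‖² ‖ψ‖² - z ∫ |ψ|²/|x|` in the direction `(θ, a)`, at `‖ψ‖ = 1`. -/
def dG (ε z : ℝ) (ψ : R3 → Sp) (B : Fin 3 → R3 → ℝ) (θ : R3 → Sp) (a : Fin 3 → R3 → ℝ) : ℝ :=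
  2 * ε * (∫ x, ∑ j, B j x * curlA a j x) +
    2 * ∫ x, (ε * mag B - z / ‖x‖) * (inner ℂ (ψ x) (θ x)).re

/-- FOC: the first order condition. -/
def ST_FOC : Prop := ∀ ε z : ℝ, 0 < ε → 0 < z → Finite ε z → ∀ ψ D A B, InF ψ D A B →
  ε * mag B = z * cou ψ → ∃ C : ℝ, ∀ θ a, Test θ → TestA a →
    MemLp (Lin ψ A θ a) 2 volume ∧
    |dG ε z ψ B θ a| ≤ C * Real.sqrt (∫ x, ‖Lin ψ A θ a x‖ ^ 2)

/-- RIESZ: the abstract lemma. -/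
def ST_RIESZ : Prop := ∀ (X : Type) (_ : AddCommGroup X) (_ : Module ℝ X)
  (L : X →ₗ[ℝ] (Lp Sp 2 (volume : Measure R3))) (g : X →ₗ[ℝ] ℝ) (C : ℝ),
  (∀ x, |g x| ≤ C * ‖L x‖) → ∃ η : R3 → Sp, MemLp η 2 volume ∧
    ∀ x, g x = ∫ y, (inner ℂ (η y) (L x y)).re

/-- MULT: the multiplier. -/
def ST_MULT : Prop := ∀ ε z : ℝ, 0 < ε → 0 < z → Finite ε z → ∀ ψ D A B, InF ψ D A B →
  ε * mag B = z * cou ψ → ∃ η : R3 → Sp, MemLp η 2 volume ∧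
    (∀ θ, Test θ → ∫ x, (inner ℂ (η x) (Pi θ (fun j => pd j θ) A x)).re =
      ∫ x, (ε * mag B - z / ‖x‖) * (inner ℂ (ψ x) (θ x)).re) ∧
    (∀ a, TestA a → ε * (∫ x, ∑ j, B j x * curlA a j x) =
      - ∫ x, ∑ j, a j x * (inner ℂ (η x) (sig j (ψ x))).re)

end

end Helper97.PC
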