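import Pool.Agent.Helper97.PC.TestFn

/-! # MP_b1e538: the Lagrange multiplier -/

open MeasureTheory

namespace Helper97.PC

noncomputable section

theorem Test.sum {ι : Type*} {E : Type*} [NormedAddCommGroup E] [NormedSpace ℝ E]
    (s : Finset ι) {f : ι → R3 → E} (h : ∀ i ∈ s, Test (f i)) : Test (fun x => ∑ i ∈ s, f i x) := by
  classical
  induction s using Finset.induction_on with
  | empty => simpa using Test.zero
  | insert i s hi ih =>
    have h1 := (h i (Finset.mem_insert_self i s)).add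
      (ih fun k hk => h k (Finset.mem_insert_of_mem hk))
    simpa [Finset.sum_insert hi] using h1

/-- The space of test pairs. -/
def TP : Submodule ℝ ((R3 → Sp) × (Fin 3 → R3 → ℝ)) where
  carrier := {p | Test p.1 ∧ TestA p.2}
  zero_mem' := by
    refine ⟨Test.zero, fun j => Test.zero, fun x => ?_⟩
    refine Finset.sum_eq_zero fun j _ => ?_
    show pd j (fun _ : R3 => (0 : ℝ)) x = 0
    unfold pd
    simp
  add_mem' := by
    rintro p q ⟨hp1, hp2⟩ ⟨hq1, hq2⟩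
    refine ⟨hp1.add hq1, fun j => (hp2.1 j).add (hq2.1 j), fun x => ?_⟩
    have : ∀ j, pd j ((p + q).2 j) x = pd j (p.2 j) x + pd j (q.2 j) x :=
      fun j => pd_add (hp2.1 j) (hq2.1 j) j x
    simp only [this, Finset.sum_add_distrib, hp2.2 x, hq2.2 x, add_zero]
  smul_mem' := by
    rintro c p ⟨hp1, hp2⟩
    refine ⟨hp1.smul c, fun j => (hp2.1 j).smul c, fun x => ?_⟩
    have : ∀ j, pd j ((c • p).2 j) x = c • pd j (p.2 j) x :=
      fun j => pd_smul (hp2.1 j) c j x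
    simp only [this, ← Finset.smul_sum, hp2.2 x, smul_zero]

theorem Pi_add {θ₁ θ₂ : R3 → Sp} (h1 : Test θ₁) (h2 : Test θ₂) (A : Fin 3 → R3 → ℝ) (x : R3) :
    Pi (fun x => θ₁ x + θ₂ x) (fun j => pd j (fun x => θ₁ x + θ₂ x)) A x =
      Pi θ₁ (fun j => pd j θ₁) A x + Pi θ₂ (fun j => pd j θ₂) A x := by
  unfold Pi
  rw [← Finset.sum_add_distrib]
  refine Finset.sum_congr rfl fun j _ => ?_
  rw [← map_add]
  beta_reduce
  rw [pd_add h1 h2 j x]
  congr 1
  rw [smul_add, smul_add]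
  abel

theorem Pi_smul' {θ : R3 → Sp} (h : Test θ) (A : Fin 3 → R3 → ℝ) (c : ℝ) (x : R3) :
    Pi (fun x => c • θ x) (fun j => pd j (fun x => c • θ x)) A x =
      c • Pi θ (fun j => pd j θ) A x := by
  unfold Pi
  rw [Finset.smul_sum]
  refine Finset.sum_congr rfl fun j _ => ?_
  beta_reduce
  rw [pd_smul h c j x, smul_comm (-Complex.I) c (pd j θ x), smul_comm (A j x : ℂ) c (θ x),
    ← smul_sub]
  exact ((sig j).restrictScalars ℝ).map_smul c _

theorem Lin_add (ψ : R3 → Sp) (A : Fin 3 → R3 → ℝ) {θ₁ θ₂ : R3 → Sp} (h1 : Test θ₁) (h2 : Test θ₂)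
    (a₁ a₂ : Fin 3 → R3 → ℝ) (x : R3) :
    Lin ψ A (fun x => θ₁ x + θ₂ x) (fun j x => a₁ j x + a₂ j x) x =
      Lin ψ A θ₁ a₁ x + Lin ψ A θ₂ a₂ x := by
  unfold Lin
  rw [Pi_add h1 h2]
  have : ∑ j, (((a₁ j x + a₂ j x : ℝ)) : ℂ) • sig j (ψ x) =
      (∑ j, (a₁ j x : ℂ) • sig j (ψ x)) + ∑ j, (a₂ j x : ℂ) • sig j (ψ x) := by
    rw [← Finset.sum_add_distrib]
    refine Finset.sum_congr rfl fun j _ => ?_
    rw [Complex.ofReal_add, add_smul]
  rw [this]
  abel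

theorem Lin_smul (ψ : R3 → Sp) (A : Fin 3 → R3 → ℝ) {θ : R3 → Sp} (h : Test θ)
    (a : Fin 3 → R3 → ℝ) (c : ℝ) (x : R3) :
    Lin ψ A (fun x => c • θ x) (fun j x => c * a j x) x = c • Lin ψ A θ a x := by
  unfold Lin
  rw [Pi_smul' h, smul_sub, Finset.smul_sum]
  congr 1
  refine Finset.sum_congr rfl fun j _ => ?_
  rw [Complex.ofReal_mul, mul_smul]
  rfl

theorem curlA_add {a b : Fin 3 → R3 → ℝ} (ha : TestA a) (hb : TestA b) (j : Fin 3) (x : R3) :
    curlA (fun j x => a j x + b j x) j x = curlA a j x + curlA b j x := by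
  unfold curlA
  rw [pd_add (ha.1 (j + 2)) (hb.1 (j + 2)), pd_add (ha.1 (j + 1)) (hb.1 (j + 1))]
  ring

theorem curlA_smul {a : Fin 3 → R3 → ℝ} (ha : TestA a) (c : ℝ) (j : Fin 3) (x : R3) :
    curlA (fun j x => c * a j x) j x = c * curlA a j x := by
  unfold curlA
  have h1 := pd_smul (ha.1 (j + 2)) c (j + 1) x
  have h2 := pd_smul (ha.1 (j + 1)) c (j + 2) x
  simp only [smul_eq_mul] at h1 h2
  rw [h1, h2]
  ring

theorem dG_add (ε z : ℝ) {ψ : R3 → Sp} {B : Fin 3 → R3 → ℝ} (hψ : MemLp ψ 2 volume)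
    (hc : Integrable (fun x => ‖ψ x‖ ^ 2 / ‖x‖) volume) (hB : ∀ j, MemLp (B j) 2 volume)
    {θ₁ θ₂ : R3 → Sp} (h1 : Test θ₁) (h2 : Test θ₂)
    {a₁ a₂ : Fin 3 → R3 → ℝ} (ha1 : TestA a₁) (ha2 : TestA a₂) :
    dG ε z ψ B (fun x => θ₁ x + θ₂ x) (fun j x => a₁ j x + a₂ j x) =
      dG ε z ψ B θ₁ a₁ + dG ε z ψ B θ₂ a₂ := by
  unfold dG
  have e1 : ∫ x, ∑ j, B j x * curlA (fun j x => a₁ j x + a₂ j x) j x =
      (∫ x, ∑ j, B j x * curlA a₁ j x) + ∫ x, ∑ j, B j x * curlA a₂ j x := by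
    rw [← integral_add (integrable_curl hB ha1) (integrable_curl hB ha2)]
    congr 1; ext1 x
    rw [← Finset.sum_add_distrib]
    refine Finset.sum_congr rfl fun j _ => ?_
    rw [curlA_add ha1 ha2]; ring
  have e2 : ∫ x, (ε * mag B - z / ‖x‖) * (inner ℂ (ψ x) (θ₁ x + θ₂ x)).re =
      (∫ x, (ε * mag B - z / ‖x‖) * (inner ℂ (ψ x) (θ₁ x)).re) +
        ∫ x, (ε * mag B - z / ‖x‖) * (inner ℂ (ψ x) (θ₂ x)).re := by
    rw [← integral_add (integrable_weighted hψ hc h1) (integrable_weighted hψ hc h2)]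
    congr 1; ext1 x
    rw [inner_add_right, Complex.add_re]; ring
  rw [e1, e2]
  ring

theorem dG_smul (ε z : ℝ) {ψ : R3 → Sp} {B : Fin 3 → R3 → ℝ} (c : ℝ) (θ : R3 → Sp)
    {a : Fin 3 → R3 → ℝ} (ha : TestA a) :
    dG ε z ψ B (fun x => c • θ x) (fun j x => c * a j x) = c * dG ε z ψ B θ a := by
  unfold dG
  have e1 : ∫ x, ∑ j, B j x * curlA (fun j x => c * a j x) j x =
      c * ∫ x, ∑ j, B j x * curlA a j x := by
    rw [← integral_const_mul]
    congr 1; ext1 x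
    rw [Finset.mul_sum]
    refine Finset.sum_congr rfl fun j _ => ?_
    rw [curlA_smul ha]; ring
  have e2 : ∫ x, (ε * mag B - z / ‖x‖) * (inner ℂ (ψ x) (c • θ x)).re =
      c * ∫ x, (ε * mag B - z / ‖x‖) * (inner ℂ (ψ x) (θ x)).re := by
    rw [← integral_const_mul]
    congr 1; ext1 x
    have : (inner ℂ (ψ x) (c • θ x)).re = c * (inner ℂ (ψ x) (θ x)).re := by
      rw [← Complex.coe_smul c (θ x), inner_smul_right, Complex.re_ofReal_mul]
    rw [this]; ring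
  rw [e1, e2]
  ring

theorem MULT (hF : ST_FOC) (hR : ST_RIESZ) : ST_MULT := by
  intro ε z hε hz hfin ψ D A B h hmin
  obtain ⟨C, hC⟩ := hF ε z hε hz hfin ψ D A B h hmin
  have hψ := h.1.1.psiL2
  have hc := h.1.1.couL1
  have hB := h.1.1.magL2
  have hmem : ∀ p : TP, MemLp (Lin ψ A p.1.1 p.1.2) 2 volume :=
    fun p => (hC p.1.1 p.1.2 p.2.1 p.2.2).1
  let L : TP →ₗ[ℝ] Lp Sp 2 (volume : Measure R3) :=
    { toFun := fun p => (hmem p).toLp _
      map_add' := fun p q => by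
        rw [← MemLp.toLp_add]
        congr 1
        ext1 x
        exact Lin_add ψ A p.2.1 q.2.1 p.1.2 q.1.2 x
      map_smul' := fun c p => by
        rw [RingHom.id_apply, ← MemLp.toLp_const_smul]
        congr 1
        ext1 x
        exact Lin_smul ψ A p.2.1 p.1.2 c x }
  let g : TP →ₗ[ℝ] ℝ :=
    { toFun := fun p => dG ε z ψ B p.1.1 p.1.2 / 2
      map_add' := fun p q => by
        have := dG_add ε z hψ hc hB p.2.1 q.2.1 p.2.2 q.2.2
        have e : dG ε z ψ B (p + q : TP).1.1 (p + q : TP).1.2 =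
          dG ε z ψ B p.1.1 p.1.2 + dG ε z ψ B q.1.1 q.1.2 := this
        rw [e]; ring
      map_smul' := fun c p => by
        have := dG_smul ε z (ψ := ψ) (B := B) c p.1.1 p.2.2
        have e : dG ε z ψ B (c • p : TP).1.1 (c • p : TP).1.2 =
          c * dG ε z ψ B p.1.1 p.1.2 := this
        rw [e, RingHom.id_apply, smul_eq_mul]; ring }
  have hb : ∀ p, |g p| ≤ (C / 2) * ‖L p‖ := by
    intro p
    have h1 := (hC p.1.1 p.1.2 p.2.1 p.2.2).2
    have h2 : ‖L p‖ = Real.sqrt (∫ x, ‖Lin ψ A p.1.1 p.1.2 x‖ ^ 2) := by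
      show ‖(hmem p).toLp _‖ = _
      rw [Lp.norm_toLp, (hmem p).eLpNorm_eq_integral_rpow_norm (by norm_num) (by norm_num)]
      rw [ENNReal.toReal_ofReal (by positivity), Real.sqrt_eq_rpow]
      norm_num
    rw [h2]
    show |dG ε z ψ B p.1.1 p.1.2 / 2| ≤ _
    rw [abs_div, abs_two]
    linarith
  obtain ⟨η, hη, hrep⟩ := hR TP _ _ L g (C / 2) hb
  have hrep' : ∀ θ a, Test θ → TestA a →
      dG ε z ψ B θ a / 2 = ∫ y, (inner ℂ (η y) (Lin ψ A θ a y)).re := by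
    intro θ a hθ ha
    have h1 := hrep ⟨(θ, a), hθ, ha⟩
    have h2 : ∫ y, (inner ℂ (η y) ((L ⟨(θ, a), hθ, ha⟩ : Lp Sp 2 volume) y)).re =
        ∫ y, (inner ℂ (η y) (Lin ψ A θ a y)).re := by
      refine integral_congr_ae ?_
      filter_upwards [(hmem ⟨(θ, a), hθ, ha⟩).coeFn_toLp] with y hy
      have : (L ⟨(θ, a), hθ, ha⟩ : Lp Sp 2 volume) y = Lin ψ A θ a y := hy
      rw [this]
    rw [← h2]; exact h1
  have hz0 : TestA (fun _ _ => (0 : ℝ)) := by
    refine ⟨fun j => Test.zero, fun x => Finset.sum_eq_zero fun j _ => ?_⟩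
    unfold pd; simp
  refine ⟨η, hη, ?_, ?_⟩
  · intro θ hθ
    have h1 := hrep' θ (fun _ _ => 0) hθ hz0
    have h2 : ∀ x, Lin ψ A θ (fun _ _ => (0 : ℝ)) x = Pi θ (fun j => pd j θ) A x := by
      intro x; unfold Lin; simp
    have h3 : dG ε z ψ B θ (fun _ _ => (0 : ℝ)) =
        2 * ∫ x, (ε * mag B - z / ‖x‖) * (inner ℂ (ψ x) (θ x)).re := by
      unfold dG
      have : ∀ x, ∑ j, B j x * curlA (fun _ _ => (0 : ℝ)) j x = 0 := by
        intro x
        refine Finset.sum_eq_zero fun j _ => ?_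
        unfold curlA pd; simp
      simp only [this, integral_zero, mul_zero, zero_add]
    simp only [h2] at h1
    rw [← h1, h3]; ring
  · intro a ha
    have h1 := hrep' (fun _ => 0) a Test.zero ha
    have h2 : ∀ x, Lin ψ A (fun _ => 0) a x = - ∑ j, (a j x : ℂ) • sig j (ψ x) := by
      intro x
      unfold Lin Pi pd
      simp
    have h3 : dG ε z ψ B (fun _ => 0) a = 2 * ε * ∫ x, ∑ j, B j x * curlA a j x := by
      unfold dG; simp
    have h4 : ∀ y, (inner ℂ (η y) (Lin ψ A (fun _ => 0) a y)).re =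
        - ∑ j, a j y * (inner ℂ (η y) (sig j (ψ y))).re := by
      intro y
      rw [h2, inner_neg_right, Complex.neg_re, inner_sum, Complex.re_sum]
      congr 1
      refine Finset.sum_congr rfl fun j _ => ?_
      rw [inner_smul_right, Complex.re_ofReal_mul]
    simp only [h4, integral_neg] at h1
    rw [h3] at h1
    linarith

end

end Helper97.PC
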