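import Pool.Agent.Helper97.PC.TAIL
import Pool.Agent.Helper97.PC.MULT
import Pool.Agent.Helper52.PC.FOC
import Pool.Agent.Helper27.PC.RIESZ

/-! # MP_b1e538: the rows with explicit constants -/

open MeasureTheory Filter Topology

namespace Helper97.PC

noncomputable section

theorem QIe (hSC : ST_SC) {ε z e : ℝ} (he0 : 0 ≤ e)
    (he : ∀ v ∈ energies ε z, -e ≤ v) {ψ : R3 → Sp} {D : Fin 3 → R3 → Sp}
    {A B : Fin 3 → R3 → ℝ} (h : InC ψ D A B) :
    z * cou ψ ≤ ε * mag B + 2 * Real.sqrt e * Real.sqrt (kin ψ D A) := by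
  by_contra hcon
  push Not at hcon
  set K := kin ψ D A with hK
  set V := cou ψ with hV
  set M := mag B with hM
  have hK0 : 0 ≤ K := kin_nonneg _ _ _
  have key : ∀ lam : ℝ, 0 < lam → -e ≤ lam ^ 2 * K + lam * (ε * M - z * V) := by
    intro lam hl
    obtain ⟨ψ', D', A', B', h', h1, h2, h3⟩ := hSC ψ D A B lam hl h
    have := he _ ⟨ψ', D', A', B', h', rfl⟩
    rw [h1, h2, h3] at this
    nlinarith [this]
  set N := z * V - ε * M with hN
  have hsq : 0 ≤ 2 * Real.sqrt e * Real.sqrt K := by positivity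
  have hNpos : 0 < N := by
    have : ε * M + 2 * Real.sqrt e * Real.sqrt K < z * V := hcon
    rw [hN]; linarith
  rcases hK0.eq_or_lt with hK1 | hK1
  · have := key ((e + 1) / N) (by positivity)
    rw [← hK1] at this
    have h2 : (e + 1) / N * (ε * M - z * V) = -(e + 1) := by
      rw [show ε * M - z * V = - N by rw [hN]; ring]
      field_simp
    rw [h2] at this
    linarith
  · have h1 := key (N / (2 * K)) (by positivity)
    have h2 : (N / (2 * K)) ^ 2 * K + N / (2 * K) * (ε * M - z * V) = - (N ^ 2 / (4 * K)) := by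
      rw [show ε * M - z * V = - N by rw [hN]; ring]
      field_simp
      ring
    rw [h2] at h1
    have h3 : N ^ 2 ≤ 4 * e * K := by
      have h4 : N ^ 2 / (4 * K) ≤ e := by linarith
      rw [div_le_iff₀ (by positivity)] at h4
      linarith
    have h5 : N ≤ 2 * Real.sqrt e * Real.sqrt K := by
      have h6 : N ^ 2 ≤ (2 * Real.sqrt e * Real.sqrt K) ^ 2 := by
        rw [mul_pow, mul_pow, Real.sq_sqrt he0, Real.sq_sqrt hK0]
        linarith
      exact (abs_le_of_sq_le_sq' h6 hsq).2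
    rw [hN] at h5
    linarith

theorem QHe (hSC : ST_SC) {ε z e : ℝ} (he0 : 0 ≤ e)
    (he : ∀ v ∈ energies ε z, -e ≤ v) {ψ : R3 → Sp} {D : Fin 3 → R3 → Sp}
    {A B : Fin 3 → R3 → ℝ} (h : Adm ψ D A B) :
    z * cou ψ ≤ ε * mag B * nrm ψ +
      2 * Real.sqrt e * Real.sqrt (nrm ψ) * Real.sqrt (kin ψ D A) := by
  rcases (nrm_nonneg ψ).eq_or_lt with h0 | h0
  · have h1 := cou_eq_zero h.psiL2 h0.symm
    rw [h1, ← h0]; simp
  · obtain ⟨ψ', D', h', hk, hc⟩ := NRM ψ D A B h h0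
    have h1 := QIe hSC he0 he h'
    rw [hk, hc] at h1
    have h2 : z * cou ψ ≤ nrm ψ * (ε * mag B + 2 * Real.sqrt e * Real.sqrt (kin ψ D A / nrm ψ)) := by
      have := mul_le_mul_of_nonneg_left h1 h0.le
      calc z * cou ψ = nrm ψ * (z * (cou ψ / nrm ψ)) := by field_simp
        _ ≤ _ := this
    have h3 : nrm ψ * Real.sqrt (kin ψ D A / nrm ψ) = Real.sqrt (nrm ψ) * Real.sqrt (kin ψ D A) := by
      rw [Real.sqrt_div (kin_nonneg ψ D A)]
      have hs : Real.sqrt (nrm ψ) ≠ 0 := (Real.sqrt_pos.2 h0).ne'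
      field_simp
      rw [Real.sq_sqrt h0.le]
      ring
    calc z * cou ψ ≤ nrm ψ * (ε * mag B + 2 * Real.sqrt e * Real.sqrt (kin ψ D A / nrm ψ)) := h2
      _ = ε * mag B * nrm ψ + 2 * Real.sqrt e * (nrm ψ * Real.sqrt (kin ψ D A / nrm ψ)) := by ring
      _ = _ := by rw [h3]; ring

/-- The tail inequality for all zero modes. -/
theorem TAILe (hSC : ST_SC) (hC : ST_CUT) : ∃ C₀ : ℝ, 0 ≤ C₀ ∧ ∀ ε z e : ℝ, 0 < ε → 0 < z →
    0 ≤ e → (∀ v ∈ energies ε z, -e ≤ v) → ∀ ψ D A B, InF ψ D A B → ∀ R : ℝ, 0 < R →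
      ε * mag B * (∫ x in {x | 2 * R < ‖x‖}, ‖ψ x‖ ^ 2) ≤ (ε * mag B - z * cou ψ) +
        z / R * (∫ x in {x | R < ‖x‖}, ‖ψ x‖ ^ 2) +
        C₀ * Real.sqrt e / R * Real.sqrt (∫ x in {x | R < ‖x‖}, ‖ψ x‖ ^ 2) := by
  obtain ⟨C0, hC0, hc⟩ := hC
  refine ⟨2 * C0, by positivity, ?_⟩
  intro ε z e hε hz he0 he ψ D A B hF R hR
  set m : ℝ → ℝ := fun R => ∫ x in {x : R3 | R < ‖x‖}, ‖ψ x‖ ^ 2 with hm
  have hm0 : ∀ R, 0 ≤ m R := fun R => integral_nonneg fun _ => by positivity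
  obtain ⟨ψ', D', h', hk, hnr, hco⟩ := hc ψ D A B hF R hR
  have h1 := QHe hSC he0 he h'
  have hnr1 : nrm ψ' ≤ 1 := hnr.trans (by linarith [hm0 (2 * R)])
  have hs1 : Real.sqrt (nrm ψ') ≤ 1 := by
    rw [show (1 : ℝ) = Real.sqrt 1 by simp]
    exact Real.sqrt_le_sqrt hnr1
  have hs2 : Real.sqrt (kin ψ' D' A) ≤ C0 / R * Real.sqrt (m R) := by
    calc Real.sqrt (kin ψ' D' A) ≤ Real.sqrt ((C0 / R) ^ 2 * m R) := Real.sqrt_le_sqrt hk
      _ = C0 / R * Real.sqrt (m R) := by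
        rw [Real.sqrt_mul (sq_nonneg _), Real.sqrt_sq (by positivity)]
  have h2 : 2 * Real.sqrt e * Real.sqrt (nrm ψ') * Real.sqrt (kin ψ' D' A) ≤
      2 * Real.sqrt e * (C0 / R * Real.sqrt (m R)) := by
    calc 2 * Real.sqrt e * Real.sqrt (nrm ψ') * Real.sqrt (kin ψ' D' A)
        ≤ 2 * Real.sqrt e * 1 * (C0 / R * Real.sqrt (m R)) := by
          apply mul_le_mul _ hs2 (Real.sqrt_nonneg _) (by positivity)
          exact mul_le_mul_of_nonneg_left hs1 (by positivity)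
      _ = _ := by ring
  have h3 : z * (cou ψ - m R / R) ≤ z * cou ψ' := mul_le_mul_of_nonneg_left hco hz.le
  have hμ : 0 ≤ ε * mag B := mul_nonneg hε.le (mag_nonneg B)
  have h4 : ε * mag B * nrm ψ' ≤ ε * mag B * (1 - m (2 * R)) := mul_le_mul_of_nonneg_left hnr hμ
  show ε * mag B * m (2 * R) ≤ (ε * mag B - z * cou ψ) + z / R * m R +
    2 * C0 * Real.sqrt e / R * Real.sqrt (m R)
  have e1 : z * (cou ψ - m R / R) = z * cou ψ - z / R * m R := by
    field_simp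
  have e2 : 2 * Real.sqrt e * (C0 / R * Real.sqrt (m R)) =
      2 * C0 * Real.sqrt e / R * Real.sqrt (m R) := by
    field_simp
  rw [e1] at h3
  rw [e2] at h2
  linarith

theorem Finite.of_lower {ε z e : ℝ} (he : ∀ v ∈ energies ε z, -e ≤ v) : Finite ε z :=
  ⟨-e, fun v hv => he v hv⟩

/-- RIESZ with the norm. -/
theorem RIESZe (X : Type) [AddCommGroup X] [Module ℝ X]
    (L : X →ₗ[ℝ] (Lp Sp 2 (volume : Measure R3))) (g : X →ₗ[ℝ] ℝ) (C : ℝ) (hC : 0 ≤ C)
    (hg : ∀ x, |g x| ≤ C * ‖L x‖) : ∃ η : R3 → Sp, MemLp η 2 volume ∧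
      (∫ x, ‖η x‖ ^ 2) ≤ C ^ 2 ∧ ∀ x, g x = ∫ y, (inner ℂ (η y) (L x y)).re := by
  have hker : LinearMap.ker L ≤ LinearMap.ker g := by
    intro x hx
    rw [LinearMap.mem_ker] at hx ⊢
    have := hg x
    rw [hx, norm_zero, mul_zero] at this
    exact abs_nonpos_iff.1 this
  let f0 : LinearMap.range L →ₗ[ℝ] ℝ :=
    ((LinearMap.ker L).liftQ g hker) ∘ₗ L.quotKerEquivRange.symm.toLinearMap
  have hf0 : ∀ x : X, f0 ⟨L x, LinearMap.mem_range_self L x⟩ = g x := by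
    intro x
    simp only [f0, LinearMap.comp_apply]
    have : L.quotKerEquivRange.symm.toLinearMap ⟨L x, LinearMap.mem_range_self L x⟩
        = Submodule.Quotient.mk x := by
      change L.quotKerEquivRange.symm _ = _
      rw [LinearEquiv.symm_apply_eq]
      rfl
    rw [this]
    rfl
  have hb : ∀ v : LinearMap.range L, ‖f0 v‖ ≤ C * ‖v‖ := by
    rintro ⟨v, x, rfl⟩
    rw [hf0 x, Real.norm_eq_abs]
    exact hg x
  let f : LinearMap.range L →L[ℝ] ℝ := f0.mkContinuous C hb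
  have hfn : ‖f‖ ≤ C := LinearMap.mkContinuous_norm_le f0 hC hb
  obtain ⟨G, hG, hGn⟩ := exists_extension_norm_eq (𝕜 := ℝ) (LinearMap.range L) f
  let η := (InnerProductSpace.toDual ℝ (Lp Sp 2 (volume : Measure R3))).symm G
  have hηn : ‖η‖ ≤ C := by
    have : ‖η‖ = ‖G‖ := LinearIsometryEquiv.norm_map _ _
    rw [this, hGn]; exact hfn
  refine ⟨η, Lp.memLp η, ?_, fun x => ?_⟩
  · have h1 : ‖η‖ ^ 2 = ∫ x, ‖(η : R3 → Sp) x‖ ^ 2 := by
      have h2 : inner ℝ η η = ‖η‖ ^ 2 := real_inner_self_eq_norm_sq η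
      rw [← h2, L2.inner_def]
      refine integral_congr_ae (Filter.Eventually.of_forall fun y => ?_)
      exact real_inner_self_eq_norm_sq _
    rw [← h1]
    exact pow_le_pow_left₀ (norm_nonneg _) hηn 2
  · have h1 : G (L x) = g x := by
      have := hG ⟨L x, LinearMap.mem_range_self L x⟩
      rw [show G (L x) = G ((⟨L x, LinearMap.mem_range_self L x⟩ : LinearMap.range L) :
        Lp Sp 2 (volume : Measure R3)) from rfl, this]
      exact hf0 x
    have h2 : inner ℝ η (L x) = G (L x) := by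
      simp only [η]
      rw [InnerProductSpace.toDual_symm_apply]
    rw [← h1, ← h2, L2.inner_def]
    refine integral_congr_ae (Filter.Eventually.of_forall fun y => ?_)
    exact Helper27.PC.inner_real_sp _ _

end

end Helper97.PC
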