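import Pool.Agent.Helper97.PC.Explicit

/-! # MP_b1e538: the first order condition and the multiplier with explicit constants -/

open MeasureTheory Filter Topology

namespace Helper97.PC

noncomputable section

/-- FOC with the explicit constant (helper52's proof of row FOC). -/
theorem FOCe (hPERT : ST_PERT) {ε z C : ℝ}
    (hC : ∀ ψ D A B, Adm ψ D A B →
      z * cou ψ ≤ ε * mag B * nrm ψ + C * Real.sqrt (nrm ψ) * Real.sqrt (kin ψ D A))
    {ψ : R3 → Sp} {D : Fin 3 → R3 → Sp} {A B : Fin 3 → R3 → ℝ} (hF : InF ψ D A B)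
    (hmag : ε * mag B = z * cou ψ) {θ : R3 → Sp} {a : Fin 3 → R3 → ℝ} (hθ : Test θ)
    (ha : TestA a) : MemLp (Lin ψ A θ a) 2 volume ∧
      |dG ε z ψ B θ a| ≤ C * Real.sqrt (∫ x, ‖Lin ψ A θ a x‖ ^ 2) := by
  obtain ⟨⟨hadm, hnrm⟩, hzero⟩ := hF
  set M : R3 → Sp := fun x => ∑ j, (a j x : ℂ) • sig j (θ x) with hMdef
  have hP := hPERT ψ D A B hadm θ a hθ ha
  -- the kinetic spinor
  have hpi : ∀ t : ℝ, (Pi (fun x => ψ x + t • θ x) (fun j x => D j x + t • pd j θ x)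
      (fun j x => A j x + t * a j x)) =ᵐ[volume]
      fun x => t • (Lin ψ A θ a x + t • (-M x)) := by
    intro t
    filter_upwards [hzero] with x hx
    rw [foc_pi, hx, hMdef]
    simp only [zero_add, smul_add, smul_neg, smul_smul, pow_two, sub_eq_add_neg]
  -- membership
  have hLM1 : MemLp (fun x => (1 : ℝ) • (Lin ψ A θ a x + (1 : ℝ) • (-M x))) 2 volume :=
    (memLp_congr_ae (hpi 1)).1 (hP 1).kinL2
  have hLM2 : MemLp (fun x => (-1 : ℝ) • (Lin ψ A θ a x + (-1 : ℝ) • (-M x))) 2 volume :=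
    (memLp_congr_ae (hpi (-1))).1 (hP (-1)).kinL2
  have hM : MemLp (fun x => -M x) 2 volume := by
    have h := (hLM1.add hLM2).const_smul (1 / 2 : ℝ)
    refine (memLp_congr_ae (Eventually.of_forall fun x => ?_)).1 h
    simp only [Pi.add_apply, Pi.smul_apply]
    module
  have hL : MemLp (Lin ψ A θ a) 2 volume := by
    have h := (hLM1.sub hLM2).const_smul (1 / 2 : ℝ)
    refine (memLp_congr_ae (Eventually.of_forall fun x => ?_)).1 h
    simp only [Pi.sub_apply, Pi.smul_apply]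
    module
  refine ⟨hL, ?_⟩
  have hθ2 : MemLp θ 2 volume := by
    have h := (hP 1).psiL2.sub hadm.psiL2
    refine (memLp_congr_ae (Eventually.of_forall fun x => ?_)).1 h
    simp only [Pi.sub_apply, one_smul]
    module
  have hc2 : ∀ j, MemLp (curlA a j) 2 volume := by
    intro j
    have h := ((hP 1).magL2 j).sub (hadm.magL2 j)
    refine (memLp_congr_ae (Eventually.of_forall fun x => ?_)).1 h
    simp only [Pi.sub_apply, one_mul]
    ring
  -- expansions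
  obtain ⟨hi1, hn⟩ := foc_quad1 ψ θ hadm.psiL2 hθ2
  obtain ⟨-, hk⟩ := foc_quad1 (Lin ψ A θ a) (fun x => -M x) hL hM
  have hw : ∀ f : R3 → Sp, (fun x => ‖f x‖ ^ 2 / ‖x‖) = fun x => ‖f x‖ ^ 2 * ‖x‖⁻¹ := by
    intro f; funext x; rw [div_eq_mul_inv]
  have hv1 : Integrable (fun x => ‖ψ x‖ ^ 2 * ‖x‖⁻¹) := by
    have := hadm.couL1; rwa [hw] at this
  have hv2 : Integrable (fun x => ‖ψ x + (1 : ℝ) • θ x‖ ^ 2 * ‖x‖⁻¹) := by
    have := (hP 1).couL1; rwa [hw] at this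
  have hv3 : Integrable (fun x => ‖θ x‖ ^ 2 * ‖x‖⁻¹) := by
    refine Integrable.mono' ((hv2.add hv1).const_mul 2) ?_ ?_
    · exact (hθ2.aestronglyMeasurable.norm.pow 2).mul
        (measurable_norm.inv.aestronglyMeasurable)
    · refine Eventually.of_forall fun x => ?_
      have h0 : 0 ≤ ‖x‖⁻¹ := inv_nonneg.2 (norm_nonneg _)
      rw [Real.norm_eq_abs, abs_of_nonneg (mul_nonneg (sq_nonneg _) h0)]
      simp only [Pi.add_apply]
      have h1 : ‖θ x‖ ≤ ‖ψ x + (1 : ℝ) • θ x‖ + ‖ψ x‖ := by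
        have h2 : θ x = (ψ x + (1 : ℝ) • θ x) - ψ x := by module
        calc ‖θ x‖ = ‖(ψ x + (1 : ℝ) • θ x) - ψ x‖ := by rw [← h2]
          _ ≤ _ := norm_sub_le _ _
      have h3 : ‖θ x‖ ^ 2 ≤ 2 * (‖ψ x + (1 : ℝ) • θ x‖ ^ 2 + ‖ψ x‖ ^ 2) := by
        have := norm_nonneg (θ x)
        nlinarith [sq_nonneg (‖ψ x + (1 : ℝ) • θ x‖ - ‖ψ x‖)]
      calc ‖θ x‖ ^ 2 * ‖x‖⁻¹ ≤ (2 * (‖ψ x + (1 : ℝ) • θ x‖ ^ 2 + ‖ψ x‖ ^ 2)) * ‖x‖⁻¹ :=
            mul_le_mul_of_nonneg_right h3 h0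
        _ = _ := by ring
  obtain ⟨hi2, hv⟩ := foc_quad (fun x => ‖x‖⁻¹) ψ θ hv1 hv2 hv3
  have hm := foc_mag B (curlA a) hadm.magL2 hc2
  -- names
  set b1 : ℝ := ∫ x, (inner ℂ (ψ x) (θ x)).re with hb1
  set b2 : ℝ := ∫ x, ‖θ x‖ ^ 2 with hb2
  set v1 : ℝ := ∫ x, (inner ℂ (ψ x) (θ x)).re * ‖x‖⁻¹ with hv1'
  set v2 : ℝ := ∫ x, ‖θ x‖ ^ 2 * ‖x‖⁻¹ with hv2'
  set m1 : ℝ := ∫ x, ∑ j, B j x * curlA a j x with hm1
  set m2 : ℝ := ∫ x, ∑ j, (curlA a j x) ^ 2 with hm2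
  set k0 : ℝ := ∫ x, ‖Lin ψ A θ a x‖ ^ 2 with hk0
  set k1 : ℝ := ∫ x, (inner ℂ (Lin ψ A θ a x) (-M x)).re with hk1
  set k2 : ℝ := ∫ x, ‖-M x‖ ^ 2 with hk2
  have hcou : ∀ t : ℝ, cou (fun x => ψ x + t • θ x) = cou ψ + 2 * t * v1 + t ^ 2 * v2 := by
    intro t
    have h := hv t
    unfold cou
    rw [hw (fun x => ψ x + t • θ x), hw ψ]
    exact h
  have hnrm' : ∀ t : ℝ, nrm (fun x => ψ x + t • θ x) = 1 + 2 * t * b1 + t ^ 2 * b2 := by
    intro t
    have h := hn t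
    have h' : (∫ x, ‖ψ x‖ ^ 2) = 1 := hnrm
    rw [h'] at h
    exact h
  have hmag' : ∀ t : ℝ, mag (fun j x => B j x + t * curlA a j x) =
      mag B + 2 * t * m1 + t ^ 2 * m2 := fun t => hm t
  have hkin : ∀ t : ℝ, kin (fun x => ψ x + t • θ x) (fun j x => D j x + t • pd j θ x)
      (fun j x => A j x + t * a j x) = t ^ 2 * (k0 + 2 * t * k1 + t ^ 2 * k2) := by
    intro t
    unfold kin
    have e : (fun x => ‖Pi (fun x => ψ x + t • θ x) (fun j x => D j x + t • pd j θ x)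
        (fun j x => A j x + t * a j x) x‖ ^ 2) =ᵐ[volume]
        fun x => t ^ 2 * ‖Lin ψ A θ a x + t • (-M x)‖ ^ 2 := by
      filter_upwards [hpi t] with x hx
      rw [hx, norm_smul, mul_pow, Real.norm_eq_abs, sq_abs]
    rw [integral_congr_ae e, integral_const_mul, hk t]
  have hdG : dG ε z ψ B θ a = 2 * ε * m1 + 2 * (ε * mag B * b1 - z * v1) := by
    unfold dG
    have e : (fun x : R3 => (ε * mag B - z / ‖x‖) * (inner ℂ (ψ x) (θ x)).re) =
        fun x => ε * mag B * (inner ℂ (ψ x) (θ x)).re -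
          z * ((inner ℂ (ψ x) (θ x)).re * ‖x‖⁻¹) := by
      funext x
      rw [div_eq_mul_inv]; ring
    rw [e, integral_sub (hi1.const_mul _) (hi2.const_mul _), integral_const_mul,
      integral_const_mul]
  -- the inequalities
  have hmain : ∀ t : ℝ, t * (-dG ε z ψ B θ a) + t ^ 2 * (z * v2 - ε * (m2 + 4 * m1 * b1 +
      mag B * b2) - ε * t * (2 * m1 * b2 + 2 * m2 * b1) - ε * t ^ 2 * m2 * b2) ≤
      C * Real.sqrt (1 + 2 * t * b1 + t ^ 2 * b2) *
        (|t| * Real.sqrt (k0 + 2 * t * k1 + t ^ 2 * k2)) := by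
    intro t
    have h := hC _ _ _ _ (hP t)
    rw [hcou t, hnrm' t, hmag' t, hkin t, Real.sqrt_mul (sq_nonneg t), Real.sqrt_sq_eq_abs] at h
    rw [hdG]
    have e : t * (-(2 * ε * m1 + 2 * (ε * mag B * b1 - z * v1))) + t ^ 2 * (z * v2 -
        ε * (m2 + 4 * m1 * b1 + mag B * b2) - ε * t * (2 * m1 * b2 + 2 * m2 * b1) -
        ε * t ^ 2 * m2 * b2) = z * (cou ψ + 2 * t * v1 + t ^ 2 * v2) -
        ε * (mag B + 2 * t * m1 + t ^ 2 * m2) * (1 + 2 * t * b1 + t ^ 2 * b2) := by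
      linear_combination hmag
    rw [e]
    linarith
  have hfin' := foc_lim (-dG ε z ψ B θ a) C
    (fun t => z * v2 - ε * (m2 + 4 * m1 * b1 + mag B * b2) -
      ε * t * (2 * m1 * b2 + 2 * m2 * b1) - ε * t ^ 2 * m2 * b2)
    (fun t => 1 + 2 * t * b1 + t ^ 2 * b2) (fun t => k0 + 2 * t * k1 + t ^ 2 * k2)
    (by fun_prop) (by fun_prop) (by fun_prop) hmain
  simp only [abs_neg, mul_zero, zero_mul, add_zero, ne_eq, OfNat.ofNat_ne_zero,
    not_false_eq_true, zero_pow, Real.sqrt_one, mul_one] at hfin'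
  exact hfin'

/-- The multiplier, with its norm. -/
theorem MULTe {ε z C : ℝ} (hC0 : 0 ≤ C) {ψ : R3 → Sp} {D : Fin 3 → R3 → Sp}
    {A B : Fin 3 → R3 → ℝ} (h : InF ψ D A B)
    (hC : ∀ θ a, Test θ → TestA a → MemLp (Lin ψ A θ a) 2 volume ∧
      |dG ε z ψ B θ a| ≤ C * Real.sqrt (∫ x, ‖Lin ψ A θ a x‖ ^ 2)) :
    ∃ η : R3 → Sp, MemLp η 2 volume ∧ (∫ x, ‖η x‖ ^ 2) ≤ (C / 2) ^ 2 ∧
    (∀ θ, Test θ → ∫ x, (inner ℂ (η x) (Pi θ (fun j => pd j θ) A x)).re =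
      ∫ x, (ε * mag B - z / ‖x‖) * (inner ℂ (ψ x) (θ x)).re) ∧
    (∀ a, TestA a → ε * (∫ x, ∑ j, B j x * curlA a j x) =
      - ∫ x, ∑ j, a j x * (inner ℂ (η x) (sig j (ψ x))).re) := by
  have hψ := h.1.1.psiL2
  have hc := h.1.1.couL1
  have hB := h.1.1.magL2
  have hmem : ∀ p : TP, MemLp (Lin ψ A p.1.1 p.1.2) 2 volume :=
    fun p => (hC p.1.1 p.1.2 p.2.1 p.2.2).1
  let L : TP →ₗ[ℝ] Lp Sp 2 (volume : Measure R3) :=
    { toFun := fun p => (hmem p).toLp _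
      map_add' := fun p q => by
        rw [← MemLp.toLp_add]
        congr 1
        ext1 x
        exact Lin_add ψ A p.2.1 q.2.1 p.1.2 q.1.2 x
      map_smul' := fun c p => by
        rw [RingHom.id_apply, ← MemLp.toLp_const_smul]
        congr 1
        ext1 x
        exact Lin_smul ψ A p.2.1 p.1.2 c x }
  let g : TP →ₗ[ℝ] ℝ :=
    { toFun := fun p => dG ε z ψ B p.1.1 p.1.2 / 2
      map_add' := fun p q => by
        have := dG_add ε z hψ hc hB p.2.1 q.2.1 p.2.2 q.2.2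
        have e : dG ε z ψ B (p + q : TP).1.1 (p + q : TP).1.2 =
          dG ε z ψ B p.1.1 p.1.2 + dG ε z ψ B q.1.1 q.1.2 := this
        rw [e]; ring
      map_smul' := fun c p => by
        have := dG_smul ε z (ψ := ψ) (B := B) c p.1.1 p.2.2
        have e : dG ε z ψ B (c • p : TP).1.1 (c • p : TP).1.2 =
          c * dG ε z ψ B p.1.1 p.1.2 := this
        rw [e, RingHom.id_apply, smul_eq_mul]; ring }
  have hb : ∀ p, |g p| ≤ (C / 2) * ‖L p‖ := by
    intro p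
    have h1 := (hC p.1.1 p.1.2 p.2.1 p.2.2).2
    have h2 : ‖L p‖ = Real.sqrt (∫ x, ‖Lin ψ A p.1.1 p.1.2 x‖ ^ 2) := by
      show ‖(hmem p).toLp _‖ = _
      rw [Lp.norm_toLp, (hmem p).eLpNorm_eq_integral_rpow_norm (by norm_num) (by norm_num)]
      rw [ENNReal.toReal_ofReal (by positivity), Real.sqrt_eq_rpow]
      norm_num
    rw [h2]
    show |dG ε z ψ B p.1.1 p.1.2 / 2| ≤ _
    rw [abs_div, abs_two]
    linarith
  obtain ⟨η, hη, hηn, hrep⟩ := RIESZe TP L g (C / 2) (by positivity) hb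
  have hrep' : ∀ θ a, Test θ → TestA a →
      dG ε z ψ B θ a / 2 = ∫ y, (inner ℂ (η y) (Lin ψ A θ a y)).re := by
    intro θ a hθ ha
    have h1 := hrep ⟨(θ, a), hθ, ha⟩
    have h2 : ∫ y, (inner ℂ (η y) ((L ⟨(θ, a), hθ, ha⟩ : Lp Sp 2 volume) y)).re =
        ∫ y, (inner ℂ (η y) (Lin ψ A θ a y)).re := by
      refine integral_congr_ae ?_
      filter_upwards [(hmem ⟨(θ, a), hθ, ha⟩).coeFn_toLp] with y hy
      have : (L ⟨(θ, a), hθ, ha⟩ : Lp Sp 2 volume) y = Lin ψ A θ a y := hy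
      rw [this]
    rw [← h2]; exact h1
  have hz0 : TestA (fun _ _ => (0 : ℝ)) := by
    refine ⟨fun j => Test.zero, fun x => Finset.sum_eq_zero fun j _ => ?_⟩
    unfold pd; simp
  refine ⟨η, hη, hηn, ?_, ?_⟩
  · intro θ hθ
    have h1 := hrep' θ (fun _ _ => 0) hθ hz0
    have h2 : ∀ x, Lin ψ A θ (fun _ _ => (0 : ℝ)) x = Pi θ (fun j => pd j θ) A x := by
      intro x; unfold Lin; simp
    have h3 : dG ε z ψ B θ (fun _ _ => (0 : ℝ)) =
        2 * ∫ x, (ε * mag B - z / ‖x‖) * (inner ℂ (ψ x) (θ x)).re := by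
      unfold dG
      have : ∀ x, ∑ j, B j x * curlA (fun _ _ => (0 : ℝ)) j x = 0 := by
        intro x
        refine Finset.sum_eq_zero fun j _ => ?_
        unfold curlA pd; simp
      simp only [this, integral_zero, mul_zero, zero_add]
    simp only [h2] at h1
    rw [← h1, h3]; ring
  · intro a ha
    have h1 := hrep' (fun _ => 0) a Test.zero ha
    have h2 : ∀ x, Lin ψ A (fun _ => 0) a x = - ∑ j, (a j x : ℂ) • sig j (ψ x) := by
      intro x
      unfold Lin Pi pd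
      simp
    have h3 : dG ε z ψ B (fun _ => 0) a = 2 * ε * ∫ x, ∑ j, B j x * curlA a j x := by
      unfold dG; simp
    have h4 : ∀ y, (inner ℂ (η y) (Lin ψ A (fun _ => 0) a y)).re =
        - ∑ j, a j y * (inner ℂ (η y) (sig j (ψ y))).re := by
      intro y
      rw [h2, inner_neg_right, Complex.neg_re, inner_sum, Complex.re_sum]
      congr 1
      refine Finset.sum_congr rfl fun j _ => ?_
      rw [inner_smul_right, Complex.re_ofReal_mul]
    simp only [h4, integral_neg] at h1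
    rw [h3] at h1
    linarith

end

end Helper97.PC
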