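import Pool.Agent.Helper97.PC.Defs

/-! # MP_b1e538: multiplying a spinor by a real constant -/

open MeasureTheory

namespace Helper97.PC

theorem Pi_smul (ψ : R3 → Sp) (D : Fin 3 → R3 → Sp) (A : Fin 3 → R3 → ℝ) (c : ℝ) (x : R3) :
    Pi (fun x => c • ψ x) (fun j x => c • D j x) A x = c • Pi ψ D A x := by
  unfold Pi
  rw [Finset.smul_sum]
  refine Finset.sum_congr rfl fun j _ => ?_
  rw [smul_comm (-Complex.I) c (D j x), smul_comm (A j x : ℂ) c (ψ x), ← smul_sub]
  exact ((sig j).restrictScalars ℝ).map_smul c _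

theorem WeakD.smul {j : Fin 3} {f g : R3 → Sp} (h : WeakD j f g) (c : ℝ) :
    WeakD j (fun x => c • f x) (fun x => c • g x) := by
  intro φ hφ
  have := h φ hφ
  calc ∫ x, pd j φ x • c • f x = ∫ x, c • (pd j φ x • f x) := by
        congr 1; ext1 x; rw [smul_comm]
    _ = c • ∫ x, pd j φ x • f x := integral_smul _ _
    _ = - ∫ x, c • (φ x • g x) := by rw [this, integral_smul, smul_neg]
    _ = - ∫ x, φ x • c • g x := by
        congr 2; ext1 x; rw [smul_comm]

theorem Adm.smul {ψ : R3 → Sp} {D : Fin 3 → R3 → Sp} {A B : Fin 3 → R3 → ℝ} (h : Adm ψ D A B)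
    (c : ℝ) : Adm (fun x => c • ψ x) (fun j x => c • D j x) A B where
  psiL2 := h.psiL2.const_smul c
  derL2 j := (h.derL2 j).const_smul c
  der j := (h.der j).smul c
  potL6 := h.potL6
  div := h.div
  magL2 := h.magL2
  curl := h.curl
  kinL2 := by
    have : Pi (fun x => c • ψ x) (fun j x => c • D j x) A = fun x => c • Pi ψ D A x := by
      ext1 x; exact Pi_smul ψ D A c x
    rw [this]
    exact h.kinL2.const_smul c
  couL1 := by
    have : (fun x => ‖c • ψ x‖ ^ 2 / ‖x‖) = fun x => c ^ 2 * (‖ψ x‖ ^ 2 / ‖x‖) := by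
      ext1 x
      rw [norm_smul, mul_pow, Real.norm_eq_abs, sq_abs]
      ring
    rw [this]
    exact h.couL1.const_mul _

theorem nrm_smul (ψ : R3 → Sp) (c : ℝ) : nrm (fun x => c • ψ x) = c ^ 2 * nrm ψ := by
  unfold nrm
  rw [← integral_const_mul]
  congr 1; ext1 x
  rw [norm_smul, mul_pow, Real.norm_eq_abs, sq_abs]

theorem cou_smul (ψ : R3 → Sp) (c : ℝ) : cou (fun x => c • ψ x) = c ^ 2 * cou ψ := by
  unfold cou
  rw [← integral_const_mul]
  congr 1; ext1 x
  rw [norm_smul, mul_pow, Real.norm_eq_abs, sq_abs]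
  ring

theorem kin_smul (ψ : R3 → Sp) (D : Fin 3 → R3 → Sp) (A : Fin 3 → R3 → ℝ) (c : ℝ) :
    kin (fun x => c • ψ x) (fun j x => c • D j x) A = c ^ 2 * kin ψ D A := by
  unfold kin
  rw [← integral_const_mul]
  congr 1; ext1 x
  rw [Pi_smul, norm_smul, mul_pow, Real.norm_eq_abs, sq_abs]

theorem NRM : ST_NRM := by
  intro ψ D A B h hn
  set c : ℝ := 1 / Real.sqrt (nrm ψ) with hc
  have hc2 : c ^ 2 = 1 / nrm ψ := by
    rw [hc, div_pow, one_pow, Real.sq_sqrt hn.le]
  refine ⟨fun x => c • ψ x, fun j x => c • D j x, ⟨h.smul c, ?_⟩, ?_, ?_⟩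
  · rw [nrm_smul, hc2]; field_simp
  · rw [kin_smul, hc2]; ring
  · rw [cou_smul, hc2]; ring

end Helper97.PC
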