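import Pool.Agent.Helper97.PC.QI
import Pool.Agent.Helper97.PC.NRM

/-! # MP_b1e538: the homogeneous form of `E(z) > -∞` -/

open MeasureTheory

namespace Helper97.PC

/-- If `‖ψ‖ = 0` then `∫ |ψ|²/|x| = 0`. -/
theorem cou_eq_zero {ψ : R3 → Sp} (h : MemLp ψ 2 volume) (h0 : nrm ψ = 0) : cou ψ = 0 := by
  unfold nrm at h0
  have hi : Integrable (fun x => ‖ψ x‖ ^ 2) volume := h.integrable_norm_pow (by norm_num)
  have h1 : (fun x => ‖ψ x‖ ^ 2) =ᵐ[volume] 0 :=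
    (integral_eq_zero_iff_of_nonneg (fun x => by positivity) hi).1 h0
  unfold cou
  rw [integral_eq_zero_of_ae]
  filter_upwards [h1] with x hx
  have : ‖ψ x‖ ^ 2 = 0 := hx
  simp [this]

theorem QH (hSC : ST_SC) (hN : ST_NRM) : ST_QH := by
  intro ε z hε hz hf
  obtain ⟨C, hC⟩ := (QI hSC ε z hε hz).1 hf
  refine ⟨max C 0, le_max_right _ _, ?_⟩
  intro ψ D A B h
  rcases (nrm_nonneg ψ).eq_or_lt with h0 | h0
  · have h1 := cou_eq_zero h.psiL2 h0.symm
    rw [h1, ← h0]; simp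
  · obtain ⟨ψ', D', h', hk, hc⟩ := hN ψ D A B h h0
    have h1 := hC ψ' D' A B h'
    rw [hk, hc] at h1
    have h2 : z * cou ψ ≤ nrm ψ * (ε * mag B + C * Real.sqrt (kin ψ D A / nrm ψ)) := by
      have := mul_le_mul_of_nonneg_left h1 h0.le
      calc z * cou ψ = nrm ψ * (z * (cou ψ / nrm ψ)) := by field_simp
        _ ≤ _ := this
    have h3 : nrm ψ * Real.sqrt (kin ψ D A / nrm ψ) = Real.sqrt (nrm ψ) * Real.sqrt (kin ψ D A) := by
      rw [Real.sqrt_div (kin_nonneg ψ D A)]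
      have hs : Real.sqrt (nrm ψ) ≠ 0 := (Real.sqrt_pos.2 h0).ne'
      field_simp
      rw [Real.sq_sqrt h0.le]
      ring
    have h4 : C * (Real.sqrt (nrm ψ) * Real.sqrt (kin ψ D A)) ≤
        max C 0 * (Real.sqrt (nrm ψ) * Real.sqrt (kin ψ D A)) :=
      mul_le_mul_of_nonneg_right (le_max_left _ _) (by positivity)
    calc z * cou ψ ≤ nrm ψ * (ε * mag B + C * Real.sqrt (kin ψ D A / nrm ψ)) := h2
      _ = ε * mag B * nrm ψ + C * (nrm ψ * Real.sqrt (kin ψ D A / nrm ψ)) := by ring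
      _ = ε * mag B * nrm ψ + C * (Real.sqrt (nrm ψ) * Real.sqrt (kin ψ D A)) := by rw [h3]
      _ ≤ ε * mag B * nrm ψ + max C 0 * (Real.sqrt (nrm ψ) * Real.sqrt (kin ψ D A)) := by linarith
      _ = _ := by ring

end Helper97.PC
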