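import Pool.Agent.Helper97.PC.Defs

/-! # MP_b1e538: the scale invariant form of `E(z) > -∞` -/

open MeasureTheory

namespace Helper97.PC

theorem kin_nonneg (ψ : R3 → Sp) (D : Fin 3 → R3 → Sp) (A : Fin 3 → R3 → ℝ) : 0 ≤ kin ψ D A :=
  integral_nonneg fun _ => by positivity

theorem mag_nonneg (B : Fin 3 → R3 → ℝ) : 0 ≤ mag B :=
  integral_nonneg fun _ => Finset.sum_nonneg fun _ _ => by positivity

theorem nrm_nonneg (ψ : R3 → Sp) : 0 ≤ nrm ψ := integral_nonneg fun _ => by positivity

theorem cou_nonneg (ψ : R3 → Sp) : 0 ≤ cou ψ := integral_nonneg fun _ => by positivity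

theorem QI (hSC : ST_SC) : ST_QI := by
  intro ε z hε hz
  constructor
  · rintro ⟨e, he⟩
    refine ⟨2 * Real.sqrt |e|, ?_⟩
    intro ψ D A B h
    by_contra hcon
    push Not at hcon
    set K := kin ψ D A with hK
    set V := cou ψ with hV
    set M := mag B with hM
    have hK0 : 0 ≤ K := kin_nonneg _ _ _
    -- for all lam > 0 : e ≤ lam^2 K + lam (ε M - z V)
    have key : ∀ lam : ℝ, 0 < lam → e ≤ lam ^ 2 * K + lam * (ε * M - z * V) := by
      intro lam hl
      obtain ⟨ψ', D', A', B', h', h1, h2, h3⟩ := hSC ψ D A B lam hl h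
      have := he ⟨ψ', D', A', B', h', rfl⟩
      rw [h1, h2, h3] at this
      nlinarith [this]
    set N := z * V - ε * M with hN
    have hsq : 0 ≤ 2 * Real.sqrt |e| * Real.sqrt K := by positivity
    have hNpos : 0 < N := by
      have : ε * M + 2 * Real.sqrt |e| * Real.sqrt K < z * V := hcon
      rw [hN]; linarith
    rcases hK0.eq_or_lt with hK1 | hK1
    · -- K = 0
      have := key ((|e| + 1) / N) (by positivity)
      rw [← hK1] at this
      have h2 : (|e| + 1) / N * (ε * M - z * V) = -(|e| + 1) := by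
        rw [show ε * M - z * V = - N by rw [hN]; ring]
        field_simp
      rw [h2] at this
      have := neg_abs_le e
      linarith
    · have h1 := key (N / (2 * K)) (by positivity)
      have h2 : (N / (2 * K)) ^ 2 * K + N / (2 * K) * (ε * M - z * V) = - (N ^ 2 / (4 * K)) := by
        rw [show ε * M - z * V = - N by rw [hN]; ring]
        field_simp
        ring
      rw [h2] at h1
      have h3 : N ^ 2 ≤ 4 * |e| * K := by
        have h4 : N ^ 2 / (4 * K) ≤ |e| := by
          have := neg_abs_le e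
          linarith [h1, neg_le_abs e]
        rw [div_le_iff₀ (by positivity)] at h4
        linarith
      have h5 : N ≤ 2 * Real.sqrt |e| * Real.sqrt K := by
        have h6 : N ^ 2 ≤ (2 * Real.sqrt |e| * Real.sqrt K) ^ 2 := by
          rw [mul_pow, mul_pow, Real.sq_sqrt (abs_nonneg e), Real.sq_sqrt hK0]
          linarith
        exact abs_le_of_sq_le_sq' h6 hsq |>.2
      rw [hN] at h5
      linarith
  · rintro ⟨C, hC⟩
    refine ⟨- (C ^ 2 / 4), ?_⟩
    rintro e ⟨ψ, D, A, B, h, rfl⟩
    have h1 := hC ψ D A B h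
    have h2 := Real.sq_sqrt (kin_nonneg ψ D A)
    nlinarith [sq_nonneg (Real.sqrt (kin ψ D A) - C / 2)]

end Helper97.PC
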