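import Pool.Agent.Helper97.PC.QH

/-! # MP_b1e538: the tail of a minimising zero mode -/

open MeasureTheory

namespace Helper97.PC

theorem cou_pos {ψ : R3 → Sp} (hi : Integrable (fun x => ‖ψ x‖ ^ 2 / ‖x‖) volume)
    (h1 : nrm ψ ≠ 0) : 0 < cou ψ := by
  rcases (cou_nonneg ψ).eq_or_lt with h | h
  · exfalso
    apply h1
    unfold cou at h
    have h2 : (fun x => ‖ψ x‖ ^ 2 / ‖x‖) =ᵐ[volume] 0 :=
      (integral_eq_zero_iff_of_nonneg (fun x => by positivity) hi).1 h.symm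
    have h3 : ∀ᵐ x : R3, x ≠ 0 := by
      have : (volume : Measure R3) {(0 : R3)} = 0 := measure_singleton _
      exact measure_eq_zero_iff_ae_notMem.1 this
    unfold nrm
    rw [integral_eq_zero_of_ae]
    filter_upwards [h2, h3] with x hx hx0
    have h4 : ‖ψ x‖ ^ 2 / ‖x‖ = 0 := hx
    have h5 : ‖x‖ ≠ 0 := norm_ne_zero_iff.2 hx0
    have h6 : ‖ψ x‖ ^ 2 = 0 := by
      rcases div_eq_zero_iff.1 h4 with h | h
      · exact h
      · exact absurd h h5
    exact h6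
  · exact h

theorem TAIL (hQ : ST_QH) (hC : ST_CUT) (hI : ST_ITER) : ST_TAIL := by
  intro ε z hε hz hf ψ D A B hF hmin
  obtain ⟨C1, hC1, hq⟩ := hQ ε z hε hz hf
  obtain ⟨C0, hC0, hc⟩ := hC
  set m : ℝ → ℝ := fun R => ∫ x in {x : R3 | R < ‖x‖}, ‖ψ x‖ ^ 2 with hm
  have hn1 : nrm ψ = 1 := hF.1.2
  have hint : Integrable (fun x => ‖ψ x‖ ^ 2) volume := hF.1.1.psiL2.integrable_norm_pow (by norm_num)
  have hm0 : ∀ R, 0 ≤ m R := fun R => integral_nonneg fun _ => by positivity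
  have hm1 : ∀ R, m R ≤ 1 := by
    intro R
    rw [← hn1]
    exact setIntegral_le_integral hint (Filter.Eventually.of_forall fun x => by positivity)
  have hcp : 0 < cou ψ := cou_pos hF.1.1.couL1 (by rw [hn1]; norm_num)
  set μ : ℝ := ε * mag B with hμ
  have hμp : 0 < μ := by rw [hmin]; positivity
  refine hI m ((z + C1 * C0) / μ) hm0 hm1 ?_
  intro R hR
  obtain ⟨ψ', D', h', hk, hnr, hco⟩ := hc ψ D A B hF R hR
  have h1 := hq ψ' D' A B h'
  have hnr1 : nrm ψ' ≤ 1 := hnr.trans (by linarith [hm0 (2 * R)])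
  have hs1 : Real.sqrt (nrm ψ') ≤ 1 := by
    rw [show (1 : ℝ) = Real.sqrt 1 by simp]
    exact Real.sqrt_le_sqrt hnr1
  have hs2 : Real.sqrt (kin ψ' D' A) ≤ C0 / R * Real.sqrt (m R) := by
    calc Real.sqrt (kin ψ' D' A) ≤ Real.sqrt ((C0 / R) ^ 2 * m R) := Real.sqrt_le_sqrt hk
      _ = C0 / R * Real.sqrt (m R) := by
        rw [Real.sqrt_mul (sq_nonneg _), Real.sqrt_sq (by positivity)]
  have h2 : C1 * Real.sqrt (nrm ψ') * Real.sqrt (kin ψ' D' A) ≤ C1 * (C0 / R * Real.sqrt (m R)) := by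
    calc C1 * Real.sqrt (nrm ψ') * Real.sqrt (kin ψ' D' A)
        ≤ C1 * 1 * (C0 / R * Real.sqrt (m R)) := by
          apply mul_le_mul _ hs2 (Real.sqrt_nonneg _) (by positivity)
          exact mul_le_mul_of_nonneg_left hs1 hC1
      _ = _ := by ring
  have h3 : z * (cou ψ - m R / R) ≤ z * cou ψ' := mul_le_mul_of_nonneg_left hco hz.le
  have h4 : μ * nrm ψ' ≤ μ * (1 - m (2 * R)) := mul_le_mul_of_nonneg_left hnr hμp.le
  have h5 : μ * m (2 * R) ≤ z * (m R / R) + C1 * (C0 / R * Real.sqrt (m R)) := by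
    have : z * cou ψ' ≤ μ * nrm ψ' + C1 * Real.sqrt (nrm ψ') * Real.sqrt (kin ψ' D' A) := h1
    have h6 : z * (cou ψ - m R / R) = μ - z * (m R / R) := by rw [mul_sub, ← hmin]
    rw [h6] at h3
    linarith
  have h6 : z * (m R / R) + C1 * (C0 / R * Real.sqrt (m R)) ≤
      (z + C1 * C0) / R * (m R + Real.sqrt (m R)) := by
    have e1 : (z + C1 * C0) / R * (m R + Real.sqrt (m R)) =
        z * (m R / R) + C1 * (C0 / R * Real.sqrt (m R)) + (z * Real.sqrt (m R) + C1 * C0 * m R) / R := by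
      field_simp
      ring
    have e2 : 0 ≤ (z * Real.sqrt (m R) + C1 * C0 * m R) / R := by
      have := hm0 R
      positivity
    linarith
  have h7 : (z + C1 * C0) / μ / R * (m R + Real.sqrt (m R)) =
      ((z + C1 * C0) / R * (m R + Real.sqrt (m R))) / μ := by
    field_simp
  rw [h7, le_div_iff₀ hμp]
  linarith

end Helper97.PC
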