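import Pool.Agent.Helper97.PC.Defs

/-! # MP_b1e538: test functions -/

open MeasureTheory

namespace Helper97.PC

section
variable {E : Type*} [NormedAddCommGroup E] [NormedSpace ℝ E]

theorem Test.add {f g : R3 → E} (hf : Test f) (hg : Test g) : Test (fun x => f x + g x) :=
  ⟨hf.1.add hg.1, hf.2.add hg.2⟩

theorem Test.smul {f : R3 → E} (hf : Test f) (c : ℝ) : Test (fun x => c • f x) :=
  ⟨hf.1.const_smul c, hf.2.smul_left (f := fun _ => c)⟩

theorem Test.zero : Test (fun _ : R3 => (0 : E)) :=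
  ⟨contDiff_const, HasCompactSupport.zero⟩

theorem Test.differentiable {f : R3 → E} (hf : Test f) : Differentiable ℝ f :=
  hf.1.differentiable (by simp)

theorem Test.pd_test {f : R3 → E} (hf : Test f) (j : Fin 3) : Test (pd j f) := by
  refine ⟨?_, ?_⟩
  · have h1 : ContDiff ℝ (⊤ : ℕ∞) (fderiv ℝ f) := hf.1.fderiv_right (m := (⊤ : ℕ∞)) (by simp)
    exact h1.clm_apply contDiff_const
  · have h1 : HasCompactSupport (fderiv ℝ f) := hf.2.fderiv ℝ
    exact h1.comp_left (g := fun L : R3 →L[ℝ] E => L (EuclideanSpace.single j 1)) (by simp)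

theorem pd_add {f g : R3 → E} (hf : Test f) (hg : Test g) (j : Fin 3) (x : R3) :
    pd j (fun x => f x + g x) x = pd j f x + pd j g x := by
  unfold pd
  rw [fderiv_fun_add (hf.differentiable x) (hg.differentiable x)]
  rfl

theorem pd_smul {f : R3 → E} (hf : Test f) (c : ℝ) (j : Fin 3) (x : R3) :
    pd j (fun x => c • f x) x = c • pd j f x := by
  unfold pd
  rw [fderiv_fun_const_smul (hf.differentiable x)]
  rfl

theorem Test.memLp {f : R3 → E} (hf : Test f) (p : ENNReal) : MemLp f p volume :=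
  hf.1.continuous.memLp_of_hasCompactSupport hf.2

theorem Test.bdd {f : R3 → E} (hf : Test f) : ∃ C, 0 < C ∧ ∀ x, ‖f x‖ ≤ C := by
  obtain ⟨C, hC⟩ := hf.2.exists_bound_of_continuous hf.1.continuous
  exact ⟨max C 1, by positivity, fun x => (hC x).trans (le_max_left _ _)⟩

end

theorem finrank_R3 : Module.finrank ℝ R3 = 3 := by simp

theorem integrableOn_inv_norm (r : ℝ) :
    IntegrableOn (fun x : R3 => ‖x‖⁻¹) (Metric.ball 0 r) volume := by
  have := (integrableOn_fun_norm_addHaar (E := R3) (volume : Measure R3)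
    (f := fun y : ℝ => y⁻¹) (r := r)).2 ?_
  · exact this
  · have h1 : IntegrableOn (fun y : ℝ => y) (Set.Ioo 0 r) volume :=
      (continuous_id.integrableOn_Icc (a := 0) (b := r)).mono_set Set.Ioo_subset_Icc_self
    refine h1.congr_fun ?_ measurableSet_Ioo
    intro y hy
    have hy0 : y ≠ 0 := hy.1.ne'
    simp only [finrank_R3, smul_eq_mul]
    field_simp

theorem Test.cou {E : Type*} [NormedAddCommGroup E] [NormedSpace ℝ E] {f : R3 → E} (hf : Test f) :
    Integrable (fun x => ‖f x‖ ^ 2 / ‖x‖) volume := by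
  obtain ⟨C, hC, hb⟩ := hf.bdd
  obtain ⟨r, hr⟩ := hf.2.isCompact.isBounded.subset_ball (0 : R3)
  have h1 : IntegrableOn (fun x : R3 => C ^ 2 * ‖x‖⁻¹) (Metric.ball 0 r) volume :=
    (integrableOn_inv_norm r).const_mul _
  have h2 : Integrable ((Metric.ball (0 : R3) r).indicator fun x : R3 => C ^ 2 * ‖x‖⁻¹) volume :=
    h1.integrable_indicator measurableSet_ball
  refine h2.mono' ?_ ?_
  · have hm : Measurable (fun x : R3 => ‖x‖) := measurable_norm
    exact ((hf.1.continuous.norm.pow 2).measurable.div hm).aestronglyMeasurable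
  · refine Filter.Eventually.of_forall fun x => ?_
    rw [Real.norm_of_nonneg (by positivity)]
    by_cases hx : x ∈ Metric.ball (0 : R3) r
    · rw [Set.indicator_of_mem hx, div_eq_mul_inv]
      gcongr
      exact hb x
    · rw [Set.indicator_of_notMem hx]
      have : f x = 0 := by
        by_contra hne
        exact hx (hr (subset_tsupport f hne))
      simp [this]

/-- `z/|x| Re⟨ψ, θ⟩` is integrable. -/
theorem integrable_inner_div {ψ θ : R3 → Sp} (hψ : AEStronglyMeasurable ψ volume)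
    (h1 : Integrable (fun x => ‖ψ x‖ ^ 2 / ‖x‖) volume) (hθ : Test θ) :
    Integrable (fun x => (inner ℂ (ψ x) (θ x)).re / ‖x‖) volume := by
  have h2 := hθ.cou
  refine (h1.add h2).mono' ?_ ?_
  · have hm : AEStronglyMeasurable (fun x => (inner ℂ (ψ x) (θ x)).re) volume :=
      Complex.continuous_re.comp_aestronglyMeasurable
        (hψ.inner hθ.1.continuous.aestronglyMeasurable)
    have hn : AEMeasurable (fun x : R3 => ‖x‖) volume := measurable_norm.aemeasurable
    exact (hm.aemeasurable.div hn).aestronglyMeasurable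
  · refine Filter.Eventually.of_forall fun x => ?_
    have h3 : |(inner ℂ (ψ x) (θ x)).re| ≤ ‖ψ x‖ * ‖θ x‖ :=
      (Complex.abs_re_le_norm _).trans (norm_inner_le_norm _ _)
    rw [Real.norm_eq_abs, abs_div, abs_of_nonneg (norm_nonneg x)]
    simp only [Pi.add_apply]
    rw [← add_div]
    gcongr
    nlinarith [sq_nonneg (‖ψ x‖ - ‖θ x‖), sq_nonneg (‖ψ x‖), sq_nonneg (‖θ x‖)]

theorem integrable_inner {ψ θ : R3 → Sp} (hψ : MemLp ψ 2 volume) (hθ : MemLp θ 2 volume) :
    Integrable (fun x => (inner ℂ (ψ x) (θ x)).re) volume := by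
  have h1 := hψ.integrable_norm_pow (p := 2) (by norm_num)
  have h2 := hθ.integrable_norm_pow (p := 2) (by norm_num)
  refine (h1.add h2).mono' ?_ ?_
  · exact Complex.continuous_re.comp_aestronglyMeasurable (hψ.1.inner hθ.1)
  · refine Filter.Eventually.of_forall fun x => ?_
    have h3 : |(inner ℂ (ψ x) (θ x)).re| ≤ ‖ψ x‖ * ‖θ x‖ :=
      (Complex.abs_re_le_norm _).trans (norm_inner_le_norm _ _)
    rw [Real.norm_eq_abs]
    simp only [Pi.add_apply]
    nlinarith [sq_nonneg (‖ψ x‖ - ‖θ x‖), sq_nonneg (‖ψ x‖), sq_nonneg (‖θ x‖)]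

theorem integrable_weighted {ε z : ℝ} {ψ θ : R3 → Sp} {B : Fin 3 → R3 → ℝ}
    (hψ : MemLp ψ 2 volume)
    (h1 : Integrable (fun x => ‖ψ x‖ ^ 2 / ‖x‖) volume) (hθ : Test θ) :
    Integrable (fun x => (ε * mag B - z / ‖x‖) * (inner ℂ (ψ x) (θ x)).re) volume := by
  have e : (fun x => (ε * mag B - z / ‖x‖) * (inner ℂ (ψ x) (θ x)).re) =
      fun x => ε * mag B * (inner ℂ (ψ x) (θ x)).re - z * ((inner ℂ (ψ x) (θ x)).re / ‖x‖) := by
    ext1 x; ring
  rw [e]
  exact ((integrable_inner hψ (hθ.memLp 2)).const_mul _).sub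
    ((integrable_inner_div hψ.1 h1 hθ).const_mul _)

theorem curlA_test {a : Fin 3 → R3 → ℝ} (ha : TestA a) (j : Fin 3) : Test (curlA a j) := by
  have h1 := (ha.1 (j + 2)).pd_test (j + 1)
  have h2 := ((ha.1 (j + 1)).pd_test (j + 2)).smul (-1)
  have h3 := h1.add h2
  have e : curlA a j = fun x => pd (j + 1) (a (j + 2)) x + (-1 : ℝ) • pd (j + 2) (a (j + 1)) x := by
    ext1 x; simp [curlA, sub_eq_add_neg]
  rw [e]; exact h3

theorem integrable_mul_test {b f : R3 → ℝ} (hb : MemLp b 2 volume) (hf : Test f) :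
    Integrable (fun x => b x * f x) volume := by
  have h2 := hf.memLp 2
  exact hb.integrable_mul h2

theorem integrable_curl {B a : Fin 3 → R3 → ℝ} (hB : ∀ j, MemLp (B j) 2 volume) (ha : TestA a) :
    Integrable (fun x => ∑ j, B j x * curlA a j x) volume :=
  integrable_finsetSum _ fun j _ => integrable_mul_test (hB j) (curlA_test ha j)

end Helper97.PC
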